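import Mathlib

set_option autoImplicit false

namespace Pool.Agent.Results.MP_cfde94_co.Counterexample

/-- The label `|b u - b v|` of the unordered pair `{u, v}`. -/
def edgeLabel {V : Type} (b : V → ℕ) : Sym2 V → ℕ :=
  Sym2.lift ⟨fun u v => Int.natAbs ((b u : ℤ) - (b v : ℤ)), fun u v => by
    show Int.natAbs ((b u : ℤ) - (b v : ℤ)) = Int.natAbs ((b v : ℤ) - (b u : ℤ))
    omega⟩

/-- `b` is a beta-valuation (graceful labelling) of `G`. -/
def IsBeta {V : Type} (G : SimpleGraph V) (b : V → ℕ) : Prop :=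
  Function.Injective b ∧ (∀ v, b v ≤ G.edgeSet.ncard) ∧
    Set.BijOn (edgeLabel b) G.edgeSet (Set.Icc 1 G.edgeSet.ncard)

/-- `b` is a near alpha-valuation of `G`; `S` is the set of small vertices and its complement
the set of large vertices. -/
def IsNearAlpha {V : Type} (G : SimpleGraph V) (b : V → ℕ) : Prop :=
  IsBeta G b ∧ ∃ S : Set V, (∀ v ∈ S, ∀ u, G.Adj v u → b v < b u) ∧
    (∀ v ∉ S, ∀ u, G.Adj v u → b u < b v)

theorem sum_edges {V : Type} [Fintype V] [DecidableEq V] (G : SimpleGraph V) [DecidableRel G.Adj]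
    (c : V → ℤ) (w : Sym2 V → ℤ) (hw : ∀ u v, G.Adj u v → w s(u, v) = c u + c v) :
    ∑ e ∈ G.edgeFinset, w e = ∑ v, c v * G.degree v := by
  have h1 : ∀ e ∈ G.edgeFinset, w e = ∑ v, if v ∈ e then c v else 0 := by
    intro e he
    induction e using Sym2.ind with
    | _ u v =>
      have huv : G.Adj u v := by simpa using he
      rw [hw u v huv, ← Finset.sum_filter]
      have : Finset.univ.filter (fun x => x ∈ s(u, v)) = {u, v} := by
        ext x; simp
      rw [this, Finset.sum_pair huv.ne]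
  rw [Finset.sum_congr rfl h1, Finset.sum_comm]
  apply Finset.sum_congr rfl
  intro v _
  rw [← Finset.sum_filter, Finset.sum_const, ← G.card_incidenceFinset_eq_degree,
    G.incidenceFinset_eq_filter, nsmul_eq_mul, mul_comm]

theorem nearAlpha_dvd {V : Type} [Fintype V] [DecidableEq V] (G : SimpleGraph V)
    [DecidableRel G.Adj] (hdeg : ∀ v, 4 ∣ G.degree v) (b : V → ℕ) (hb : IsNearAlpha G b) :
    (4 : ℤ) ∣ ∑ k ∈ Finset.Icc 1 G.edgeSet.ncard, (k : ℤ) := by
  classical
  obtain ⟨⟨_, _, hbij⟩, S, hS, hL⟩ := hb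
  have h1 : ∑ e ∈ G.edgeFinset, (edgeLabel b e : ℤ) =
      ∑ k ∈ Finset.Icc 1 G.edgeSet.ncard, (k : ℤ) := by
    apply Finset.sum_nbij (edgeLabel b)
    · intro e he
      have := hbij.mapsTo (by simpa using he : e ∈ G.edgeSet)
      simpa using this
    · simpa using hbij.injOn
    · simpa using hbij.surjOn
    · intro e _; rfl
  rw [← h1, sum_edges G (fun v => if v ∈ S then -(b v : ℤ) else b v)]
  · apply Finset.dvd_sum
    intro v _
    exact Dvd.dvd.mul_left (by exact_mod_cast hdeg v) _
  · intro u v huv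
    show ((Int.natAbs ((b u : ℤ) - (b v : ℤ)) : ℕ) : ℤ) = _
    by_cases hu : u ∈ S <;> by_cases hv : v ∈ S
    · have := hS u hu v huv
      have := hS v hv u huv.symm
      omega
    · have := hS u hu v huv
      simp only [hu, hv, if_true, if_false]; omega
    · have := hS v hv u huv.symm
      simp only [hu, hv, if_true, if_false]; omega
    · have := hL u hu v huv
      have := hL v hv u huv.symm
      omega

/-- The complete bipartite graph on 5 + 5 vertices minus a perfect matching. -/
def crown : SimpleGraph (Fin 10) where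
  Adj u v := u.val % 5 ≠ v.val % 5 ∧ u.val / 5 ≠ v.val / 5
  symm := ⟨fun _ _ h => ⟨h.1.symm, h.2.symm⟩⟩
  loopless := ⟨fun _ h => h.1 rfl⟩

instance : DecidableRel crown.Adj := fun u v =>
  inferInstanceAs (Decidable (u.val % 5 ≠ v.val % 5 ∧ u.val / 5 ≠ v.val / 5))

theorem crown_deg : ∀ v, crown.degree v = 4 := by decide

theorem crown_card : crown.edgeSet.ncard = 20 := by
  have h := crown.sum_degrees_eq_twice_card_edges
  simp only [crown_deg] at h
  rw [← SimpleGraph.coe_edgeFinset, Set.ncard_coe_finset]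
  simp at h
  omega

def lab : Fin 10 → ℕ := ![0, 4, 6, 11, 15, 14, 17, 20, 19, 18]

theorem crown_beta : IsBeta crown lab := by
  refine ⟨by decide, ?_, ?_⟩
  · rw [crown_card]; decide
  · rw [crown_card]
    have hsurj : Set.SurjOn (edgeLabel lab) crown.edgeSet (Set.Icc 1 20) := by
      intro k hk
      have : ∀ k : Fin 21, 1 ≤ k.val → ∃ u v, crown.Adj u v ∧
          Int.natAbs ((lab u : ℤ) - (lab v : ℤ)) = k.val := by decide
      obtain ⟨u, v, huv, h⟩ := this ⟨k, by have := hk.2; omega⟩ hk.1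
      exact ⟨s(u, v), huv, h⟩
    have hmaps : Set.MapsTo (edgeLabel lab) crown.edgeSet (Set.Icc 1 20) := by
      intro e he
      induction e using Sym2.ind with
      | _ u v =>
        have : ∀ u v, crown.Adj u v → 1 ≤ Int.natAbs ((lab u : ℤ) - (lab v : ℤ)) ∧
          Int.natAbs ((lab u : ℤ) - (lab v : ℤ)) ≤ 20 := by decide
        exact this u v he
    refine ⟨hmaps, ?_, hsurj⟩
    have himg : edgeLabel lab '' crown.edgeSet = Set.Icc 1 20 :=
      Set.Subset.antisymm hmaps.image_subset hsurj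
    apply Set.injOn_of_ncard_image_eq (hs := Set.toFinite _)
    rw [himg, crown_card]
    simp

theorem result : ∃ (n : ℕ) (G : SimpleGraph (Fin n)), G.Connected ∧ (∀ v, ∃ u, G.Adj v u) ∧
    G.Colorable 2 ∧ (∃ b, IsBeta G b) ∧ ¬ ∃ b, IsNearAlpha G b := by
  refine ⟨10, crown, by decide, by decide, ?_, ⟨lab, crown_beta⟩, ?_⟩
  · refine ⟨SimpleGraph.Coloring.mk (fun v => ⟨v.val / 5, by omega⟩) ?_⟩
    intro u v huv h
    exact huv.2 (congrArg Fin.val h)
  · rintro ⟨b, hb⟩
    have := nearAlpha_dvd crown (fun v => by rw [crown_deg]) b hb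
    rw [crown_card] at this
    revert this
    decide

end Pool.Agent.Results.MP_cfde94_co.Counterexample
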